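import Pool.Agent.W908.H.H15

set_option autoImplicit false

/-!
# An infinite polynomial hierarchy that is easy on average, and `⊕P` exponentially hard on average
-/

namespace Pool.Agent.Results.MP_a2d820_lc.EasyPHHardParity

open Pool.Agent.H620R2.Gauge Pool.Agent.H591R3.PHG Pool.Agent.W908 Pool.Agent.W908.RS
  Pool.Agent.W908.HS

/-- There is an oracle `O` relative to which
(1) the polynomial hierarchy is strict at every level, even against polynomial advice;
(2) every language of the polynomial hierarchy is easy on average under every distribution
that can be sampled in polynomial time relative to `O`, with error at most `1 / (n + 1) ^ c`, for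
every `c` and every `n`;
(3) some language in `⊕P`, so in `PSPACE`, is exponentially hard on average even with advice of
exponential length: for every `D` in polynomial time relative to `O` there is `d` such that for
every `n ≥ d` and every string `h` of length at most `2 ^ (n / d)`, the answer `D ⟨x, h⟩` is right
for at most the fraction `1 / 2 + (1 / 2) ^ (n / d)` of the inputs `x` of length `n`. -/
theorem result : ∃ O : Oracle,
    (∀ k : ℕ, ∃ L : Set (List Bool), IsSig O (k + 1) L ∧ ¬ IsSigPoly O k L) ∧
    (∀ (k : ℕ) (L : Set (List Bool)), IsSig O k L → ∀ F : List Bool → List Bool, IsFP O F →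
      ∀ (q : Polynomial ℕ) (c : ℕ), EasyOnSamples O L F q c) ∧
    ∃ L : Set (List Bool), IsParityP O L ∧ ExpHardOnAverage O L :=
  Pool.Agent.W908.HS.mainX

end Pool.Agent.Results.MP_a2d820_lc.EasyPHHardParity
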