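import Pool.Agent.W908.S.S11

set_option autoImplicit false

/-!
# An oracle with `PSPACE = EXP = SPP` and a strict polynomial hierarchy
-/

namespace Pool.Agent.Results.MP_a2d820_lc.ExpInSPPInfinitePH

open Pool.Agent.H620R2.Gauge Pool.Agent.W908.SP
open Pool.Agent.H591R3.PHG (IsSig)

/-- There is an oracle `O` relative to which polynomial space and exponential time are contained
in `SPP` and, nevertheless, the polynomial hierarchy is strict at every level: for every `k` there
is a language in the level `Σ_{k+1}` relative to `O` that is not in the level `Σ_k` relative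
to `O`. -/
theorem result : ∃ O : Oracle,
    (∀ L : Set (List Bool), IsPSPACE O L ∨ IsEXP O L → IsSPP O L) ∧
    ∀ k : ℕ, ∃ L : Set (List Bool), IsSig O (k + 1) L ∧ ¬ IsSig O k L :=
  main2

end Pool.Agent.Results.MP_a2d820_lc.ExpInSPPInfinitePH
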