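import Pool.Agent.W901.HP.HpC

/-!
# `PH = PSPACE`, level by level, and the prediction of answers: how many help bits give how much

`SigmaP j` are the levels `Σ_j` of the polynomial hierarchy (alternating polynomially bounded
quantifiers in front of polynomial-time predicates), `InPH` is their union, `InPSPACE` is polynomial
space on Mathlib's `Turing.FinTM2` machines and `PSPACEHard` is hardness under polynomial-time
many-one reductions.

Let a function with values of polynomial length and graph in a class `C` make predictions for the
answers to the `m` questions whether `y` is in `A`, `y` in a list of `m` strings; it may abstain on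
some of them. How much can the number of right predictions differ from the number of wrong ones, for
every list, if the function gets in addition `k` bits of help, which may depend on the list in any
way?

`HelpIn C (Short ε) k t A`: the difference is at least `t` on all lists of `m ≥ m₀` strings of length
at most `m ^ ε`; `HelpIn C Every k t A`: on all lists of `m ≥ m₀` strings; `HelpAll k t A`: on all
lists of `m ≥ m₀` strings, by a polynomial-time function.

There is a constant `C` such that for all `k`, `t` with `t ^ 2 ≥ C * 2 ^ k` or
`t ^ 2 ≥ (k + 1) * 2 ^ (k + 1)`, all `ε > 0` and all `j ≥ 1`

`PSPACE = Σ_j` iff `HelpIn Σ_j (Short ε) k t A` for some `PSPACE`-hard set `A` iff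
`HelpIn Σ_j Every k t A` for all `A` in `PSPACE`,

and the same with `PH` for `Σ_j`, while `HelpAll k t A` holds for all sets `A` whatsoever if
`(t - 1) ^ 2 < 2 ^ k`. So without help (`k = 0`) the difference `1` is free and the difference `2`
gives `PSPACE = Σ_j`; with one bit of help the difference `2` is free and `3` gives `PSPACE = Σ_j`.

Proof. The values of the predicting function which are used are guessed and kept in tables; it is
checked in `Σ_j` that they are right (a polynomially bounded conjunction). Functions computable in
polynomial space have polynomially long candidate lists (with the table): the prefixes of the value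
are found in a search tree, where a prefix survives only if for all seeds of a hash function the
`K = 2 ^ k` vectors of predictions for its label questions are compatible with its label. The labels
are all sign vectors with at most `K` changes of sign, up to `K` further exceptional entries. By the
theorem of Borsuk and Ulam (in the form of Hobby and Rice) there is a step function with `K` jumps
which is orthogonal to all `K` vectors, and by Spencer's theorem (linear discrepancy) its at most `K`
fractional entries can be rounded such that all `K` scalar products are smaller than `C * √ K`. So
for each seed one label is incompatible. The truth of a quantified formula is the value of an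
arithmetized expression; the candidate lists for the restrictions of the partial expressions to lines
give its value in polynomial time from the tables.

Free advantage: the rows of a Hadamard matrix, by Parseval's equation.
-/

set_option autoImplicit false

namespace Pool.Agent.Results.MP_a2d820_lc.HelpBitsLaw

open Pool.Agent.NPC Pool.Agent.H623R2.PS Pool.Agent.W901.FH Pool.Agent.W901.HP
open Pool.Agent.W903.GP (SigmaP InPH)

/-- **The law of help bits for polynomial space and the levels of the polynomial hierarchy.** -/
theorem result : ∃ C : ℕ, ∀ (k t : ℕ) (ε : ℝ),
    (0 < ε → C * 2 ^ k ≤ t ^ 2 ∨ (k + 1) * 2 ^ (k + 1) ≤ t ^ 2 →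
      (∀ j : ℕ, 1 ≤ j → List.TFAE
        [∀ L : Set (List Bool), InPSPACE L → SigmaP j L,
          ∃ A : Set (List Bool), PSPACEHard A ∧ HelpIn (SigmaP j) (Short ε) k t A,
          ∀ A : Set (List Bool), InPSPACE A → HelpIn (SigmaP j) Every k t A]) ∧
      List.TFAE
        [∀ L : Set (List Bool), InPSPACE L → InPH L,
          ∃ A : Set (List Bool), PSPACEHard A ∧ HelpIn InPH (Short ε) k t A,
          ∀ A : Set (List Bool), InPSPACE A → HelpIn InPH Every k t A]) ∧
    ((t - 1) ^ 2 < 2 ^ k → ∀ A : Set (List Bool), HelpAll k t A) :=
  help_law_sigma

end Pool.Agent.Results.MP_a2d820_lc.HelpBitsLaw
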