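import Pool.Agent.W911.IB.Main

/-!
# `PH` versus `PSPACE` relative to oracles with independent bits

For every family `p w` of probabilities, consider a random oracle which contains the strings `w`
independently of each other with the probabilities `p w` (`law p`). Let `modeO p` be the oracle
with the more probable answers, and `dev p n` the expected number of strings of length `n` at
which the random oracle differs from it.

Then `PH = PSPACE` holds relative to almost every oracle if and only if it holds relative to
`modeO p` and `dev p n` is polynomially bounded; otherwise `PSPACE` is, relative to almost every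
oracle, not even contained in the polynomial hierarchy with polynomial advice.

Moreover the truth of `PH = PSPACE` is the same for any two oracles that differ on a sparse set
only.
-/

set_option autoImplicit false

namespace Pool.Agent.Results.MP_a2d820_lc.IndependentBits

open MeasureTheory Pool.Agent.W911.IB
open Pool.Agent.H620R2.Gauge (Oracle IsPH IsPHpoly IsPSPACE)

theorem result :
    (∀ p : List Bool → unitInterval,
      ((∀ᵐ A ∂(law p), ∀ L, IsPH A L ↔ IsPSPACE A L) ↔
        (∀ L, IsPH (modeO p) L ↔ IsPSPACE (modeO p) L) ∧
          ∃ P : Polynomial ℕ, ∀ n, dev p n ≤ ((P.eval n : ℕ) : ℝ)) ∧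
      ((¬ ∀ᵐ A ∂(law p), ∀ L, IsPH A L ↔ IsPSPACE A L) →
        ∀ᵐ A ∂(law p), ∃ L, IsPSPACE A L ∧ ¬ IsPHpoly A L)) ∧
    ∀ A B : Oracle, (∃ R : Polynomial ℕ, ∀ n,
        {w : List Bool | w.length ≤ n ∧ A w ≠ B w}.ncard ≤ R.eval n) →
      ((∀ L, IsPH A L ↔ IsPSPACE A L) ↔ (∀ L, IsPH B L ↔ IsPSPACE B L)) :=
  ⟨fun p => zero_one p, fun _ _ h => same_of_few (few_of_ncard h)⟩

end Pool.Agent.Results.MP_a2d820_lc.IndependentBits
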