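import Pool.Agent.W911.AL.Main

/-!
# The classes between `PH` and `PSPACE` relative to a random oracle

`IsSigma A k L`: the language `L` is decided in polynomial time relative to the oracle `A` with
`k n` alternating quantifiers for the inputs of length `n`. We consider the functions `k` for
which the number `k n`, in unary, is computable in polynomial time (`Nice k`).

For every oracle the constant functions give the polynomial hierarchy and all nice functions
together give `PSPACE`. Relative to almost every oracle, the classes between these two are as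
different as they can be: `Σ_{k(n)} ⊆ Σ_{k'(n)}` if and only if `k n ≤ k' n` for almost all `n`,
and the same is true if the second class gets polynomial advice. More precisely there is, for
every nice `k`, one language in `Σ_{k(n)}` which differs from every language `L'` in any class
`Σ_{k'(n)}` with polynomial advice, at all sufficiently large lengths `n` with `k' n < k n`.
-/

set_option autoImplicit false

namespace Pool.Agent.Results.MP_a2d820_lc.ZAlternationScale

open Filter MeasureTheory Pool.Agent.W911.AL
open Pool.Agent.H620R2.Gauge (Oracle IsPH IsPSPACE)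

theorem result :
    (∀ (A : Oracle) (L : Set (List Bool)),
      (IsPH A L ↔ ∃ c : ℕ, IsSigma A (fun _ => c) L) ∧
      (IsPSPACE A L ↔ ∃ k : ℕ → ℕ, Nice k ∧ IsSigma A k L)) ∧
    ∀ᵐ A ∂fair, ∀ k : ℕ → ℕ, Nice k →
      (∃ L, IsSigma A k L ∧ ∀ (k' : ℕ → ℕ) (L' : Set (List Bool)), IsSigmaPoly A k' L' →
        ∀ᶠ n : ℕ in atTop, k' n < k n →
          ∃ x : List Bool, x.length = n ∧ ¬ (x ∈ L ↔ x ∈ L')) ∧
      ∀ k' : ℕ → ℕ,
        ((∀ L, IsSigma A k L → IsSigma A k' L) ↔ ∀ᶠ n in atTop, k n ≤ k' n) ∧
        ((∀ L, IsSigma A k L → IsSigmaPoly A k' L) ↔ ∀ᶠ n in atTop, k n ≤ k' n) :=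
  ⟨fun _ _ => ⟨isPH_iff, isPSPACE_iff⟩, classify_ae⟩

end Pool.Agent.Results.MP_a2d820_lc.ZAlternationScale
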