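import Pool.Agent.W903.GP.Hier

/-!
# `PH = PSPACE` as a property of the group of the length-preserving permutations with graph in `PH`

Let `GrpPH` be the group of the length-preserving permutations of the set of bit strings whose
graph is in the polynomial hierarchy, `GrpP` its subgroup of the permutations computable in
polynomial time together with their inverse, and `GrpS` the group of the length-preserving
permutations whose graph is in `PSPACE`. In `GrpS` every element is inverted by an involution. We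
show that `PH = PSPACE` if and only if every element of `GrpPH` is conjugate in `GrpPH` to its
inverse, if and only if every element of `GrpPH` is a product of two involutions, if and only if
every element of `GrpP` is conjugate to its inverse by an element of `AutPH` (the group of the
permutations with graph in `PH` that change the length at most polynomially), if and only if the
abstract groups `GrpPH` and `GrpS` are isomorphic.
-/

namespace Pool.Agent.Results.MP_a2d820_lc.ZAmbivalentPH

open Turing

/-- A function on bit strings is polynomial-time computable: some Turing machine (in the sense of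
Mathlib) computes it in polynomially many steps. -/
def PolyTime (f : List Bool → List Bool) : Prop :=
  Nonempty (TM2ComputableInPolyTime (id : List Bool → List Bool) (id : List Bool → List Bool) f)

/-- The class `P`. -/
def InP (L : Set (List Bool)) : Prop :=
  ∃ V : List Bool → List Bool, PolyTime V ∧ ∀ x, x ∈ L ↔ V x = [true]

/-- The pair of two bit strings, as a bit string: each bit of `x` is preceded by a `true`, then
comes a `false`, then `w`. -/
def pairBits (x w : List Bool) : List Bool := x.flatMap (fun b => [true, b]) ++ false :: w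

/-- The levels `Σ_k` of the polynomial hierarchy: `L` is in `Σ_(k+1)` if and only if, for some `M`
in `Σ_k` and some polynomial `p`, `L` consists of the `x` for which there is `w` of length at most
`p |x|` with `(x, w)` not in `M`. -/
def SigmaP : ℕ → Set (List Bool) → Prop
  | 0, L => InP L
  | k + 1, L => ∃ (M : Set (List Bool)) (p : Polynomial ℕ), SigmaP k M ∧
      ∀ x : List Bool, x ∈ L ↔ ∃ w : List Bool, w.length ≤ p.eval x.length ∧ pairBits x w ∉ M

/-- The polynomial hierarchy. -/
def InPH (L : Set (List Bool)) : Prop := ∃ k, SigmaP k L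

/-- The class `PSPACE`: `L` is decided by a (deterministic) machine such that, on input `x`, in
every configuration reached the length of every stack is at most `p |x|`, for a polynomial `p`. -/
def InPSPACE (L : Set (List Bool)) : Prop :=
  ∃ (tm : FinTM2) (ein : tm.Γ tm.k₀ ≃ Bool) (eout : tm.Γ tm.k₁ ≃ Bool) (p : Polynomial ℕ),
    ∀ x : List Bool,
      (∃ (n : ℕ) (b : Bool), (b = true ↔ x ∈ L) ∧
        (flip bind tm.step)^[n] (some (initList tm (x.map ein.symm))) =
          some (haltList tm [eout.symm b])) ∧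
      ∀ (i : ℕ) (c : tm.Cfg),
        (flip bind tm.step)^[i] (some (initList tm (x.map ein.symm))) = some c →
          ∀ k, (c.stk k).length ≤ p.eval x.length

/-- The graph of a function on bit strings, as a set of bit strings. -/
def graph (f : List Bool → List Bool) : Set (List Bool) := {z | ∃ x, z = pairBits x (f x)}

theorem sigmaP_eq (k : ℕ) (L : Set (List Bool)) : SigmaP k L = Pool.Agent.W903.GP.SigmaP k L := by
  induction k generalizing L with
  | zero => rfl
  | succ k ih =>
    have e : SigmaP k = Pool.Agent.W903.GP.SigmaP k := funext ih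
    change (∃ (M : Set (List Bool)) (p : Polynomial ℕ), SigmaP k M ∧ _) = _
    rw [e]
    rfl

theorem inPH_eq : InPH = Pool.Agent.W903.GP.InPH :=
  funext fun L => by
    change (∃ k, SigmaP k L) = ∃ k, Pool.Agent.W903.GP.SigmaP k L
    simp only [sigmaP_eq]

theorem nicePH : Pool.Agent.W903.GP.Nice InPH := by
  rw [inPH_eq]
  exact Pool.Agent.W903.GP.nice_ph

theorem mul_mem_P {f g : Equiv.Perm (List Bool)}
    (hf : (∀ x, (f x).length = x.length) ∧ PolyTime ⇑f ∧ PolyTime ⇑f⁻¹)
    (hg : (∀ x, (g x).length = x.length) ∧ PolyTime ⇑g ∧ PolyTime ⇑g⁻¹) :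
    (∀ x, ((f * g) x).length = x.length) ∧ PolyTime ⇑(f * g) ∧ PolyTime ⇑(f * g)⁻¹ :=
  Pool.Agent.W903.GP.GrpP.mul_mem hf hg

theorem one_mem_P : (∀ x, ((1 : Equiv.Perm (List Bool)) x).length = x.length) ∧
    PolyTime ⇑(1 : Equiv.Perm (List Bool)) ∧ PolyTime ⇑(1 : Equiv.Perm (List Bool))⁻¹ :=
  Pool.Agent.W903.GP.GrpP.one_mem

theorem inv_mem_P {f : Equiv.Perm (List Bool)}
    (hf : (∀ x, (f x).length = x.length) ∧ PolyTime ⇑f ∧ PolyTime ⇑f⁻¹) :
    (∀ x, (f⁻¹ x).length = x.length) ∧ PolyTime ⇑f⁻¹ ∧ PolyTime ⇑(f⁻¹)⁻¹ :=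
  Pool.Agent.W903.GP.GrpP.inv_mem hf

/-- The group of the length-preserving permutations `f` of the set of bit strings such that `f`
and its inverse are computable in polynomial time. -/
def GrpP : Subgroup (Equiv.Perm (List Bool)) where
  carrier := {f | (∀ x, (f x).length = x.length) ∧ PolyTime ⇑f ∧ PolyTime ⇑f⁻¹}
  mul_mem' := mul_mem_P
  one_mem' := one_mem_P
  inv_mem' := inv_mem_P

theorem mul_mem_PH {f g : Equiv.Perm (List Bool)}
    (hf : (∀ x, (f x).length = x.length) ∧ InPH (graph ⇑f))
    (hg : (∀ x, (g x).length = x.length) ∧ InPH (graph ⇑g)) :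
    (∀ x, ((f * g) x).length = x.length) ∧ InPH (graph ⇑(f * g)) :=
  (Pool.Agent.W903.GP.GrpC _ nicePH).mul_mem hf hg

theorem one_mem_PH : (∀ x, ((1 : Equiv.Perm (List Bool)) x).length = x.length) ∧
    InPH (graph ⇑(1 : Equiv.Perm (List Bool))) :=
  (Pool.Agent.W903.GP.GrpC _ nicePH).one_mem

theorem inv_mem_PH {f : Equiv.Perm (List Bool)}
    (hf : (∀ x, (f x).length = x.length) ∧ InPH (graph ⇑f)) :
    (∀ x, (f⁻¹ x).length = x.length) ∧ InPH (graph ⇑f⁻¹) :=
  (Pool.Agent.W903.GP.GrpC _ nicePH).inv_mem hf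

/-- The group of the length-preserving permutations of the set of bit strings whose graph is in
the polynomial hierarchy. -/
def GrpPH : Subgroup (Equiv.Perm (List Bool)) where
  carrier := {f | (∀ x, (f x).length = x.length) ∧ InPH (graph ⇑f)}
  mul_mem' := mul_mem_PH
  one_mem' := one_mem_PH
  inv_mem' := inv_mem_PH

theorem mul_mem_A {f g : Equiv.Perm (List Bool)}
    (hf : (∃ ρ : Polynomial ℕ, ∀ x, (f x).length ≤ ρ.eval x.length ∧
      (f⁻¹ x).length ≤ ρ.eval x.length) ∧ InPH (graph ⇑f))
    (hg : (∃ ρ : Polynomial ℕ, ∀ x, (g x).length ≤ ρ.eval x.length ∧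
      (g⁻¹ x).length ≤ ρ.eval x.length) ∧ InPH (graph ⇑g)) :
    (∃ ρ : Polynomial ℕ, ∀ x, ((f * g) x).length ≤ ρ.eval x.length ∧
      ((f * g)⁻¹ x).length ≤ ρ.eval x.length) ∧ InPH (graph ⇑(f * g)) :=
  (Pool.Agent.W903.GP.AutC _ nicePH).mul_mem hf hg

theorem one_mem_A : (∃ ρ : Polynomial ℕ, ∀ x : List Bool,
    ((1 : Equiv.Perm (List Bool)) x).length ≤ ρ.eval x.length ∧
      ((1 : Equiv.Perm (List Bool))⁻¹ x).length ≤ ρ.eval x.length) ∧
      InPH (graph ⇑(1 : Equiv.Perm (List Bool))) :=
  (Pool.Agent.W903.GP.AutC _ nicePH).one_mem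

theorem inv_mem_A {f : Equiv.Perm (List Bool)}
    (hf : (∃ ρ : Polynomial ℕ, ∀ x, (f x).length ≤ ρ.eval x.length ∧
      (f⁻¹ x).length ≤ ρ.eval x.length) ∧ InPH (graph ⇑f)) :
    (∃ ρ : Polynomial ℕ, ∀ x, (f⁻¹ x).length ≤ ρ.eval x.length ∧
      ((f⁻¹)⁻¹ x).length ≤ ρ.eval x.length) ∧ InPH (graph ⇑f⁻¹) :=
  (Pool.Agent.W903.GP.AutC _ nicePH).inv_mem hf

/-- The group of the permutations of the set of bit strings whose graph is in the polynomial hierarchy
and which, together with their inverse, change the length at most polynomially. -/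
def AutPH : Subgroup (Equiv.Perm (List Bool)) where
  carrier := {f | (∃ ρ : Polynomial ℕ, ∀ x, (f x).length ≤ ρ.eval x.length ∧
    (f⁻¹ x).length ≤ ρ.eval x.length) ∧ InPH (graph ⇑f)}
  mul_mem' := mul_mem_A
  one_mem' := one_mem_A
  inv_mem' := inv_mem_A

theorem mul_mem_S {f g : Equiv.Perm (List Bool)}
    (hf : (∀ x, (f x).length = x.length) ∧ InPSPACE (graph ⇑f))
    (hg : (∀ x, (g x).length = x.length) ∧ InPSPACE (graph ⇑g)) :
    (∀ x, ((f * g) x).length = x.length) ∧ InPSPACE (graph ⇑(f * g)) :=
  Pool.Agent.W903.GP.GrpS.mul_mem hf hg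

theorem one_mem_S : (∀ x, ((1 : Equiv.Perm (List Bool)) x).length = x.length) ∧
    InPSPACE (graph ⇑(1 : Equiv.Perm (List Bool))) :=
  Pool.Agent.W903.GP.GrpS.one_mem

theorem inv_mem_S {f : Equiv.Perm (List Bool)}
    (hf : (∀ x, (f x).length = x.length) ∧ InPSPACE (graph ⇑f)) :
    (∀ x, (f⁻¹ x).length = x.length) ∧ InPSPACE (graph ⇑f⁻¹) :=
  Pool.Agent.W903.GP.GrpS.inv_mem hf

/-- The group of the length-preserving permutations of the set of bit strings whose graph is in
`PSPACE`. -/
def GrpS : Subgroup (Equiv.Perm (List Bool)) where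
  carrier := {f | (∀ x, (f x).length = x.length) ∧ InPSPACE (graph ⇑f)}
  mul_mem' := mul_mem_S
  one_mem' := one_mem_S
  inv_mem' := inv_mem_S

/-- In `GrpS` every element is inverted by an involution; and `PH = PSPACE` holds if and only if
every element of `GrpPH` is conjugate in `GrpPH` to its inverse, if and only if every element of
`GrpPH` is the product of two elements of `GrpPH` with square `1`, if and only if every element of
`GrpP` is conjugate to its inverse by an element of `AutPH`, if and only if the groups `GrpPH` and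
`GrpS` are isomorphic. -/
theorem result :
    (∀ f ∈ GrpS, ∃ s ∈ GrpS, s * s = 1 ∧ s * f * s⁻¹ = f⁻¹) ∧
    List.TFAE [
      ∀ L : Set (List Bool), InPSPACE L ↔ InPH L,
      ∀ f ∈ GrpPH, ∃ s ∈ GrpPH, s * f * s⁻¹ = f⁻¹,
      ∀ f ∈ GrpPH, ∃ a ∈ GrpPH, ∃ b ∈ GrpPH, a * a = 1 ∧ b * b = 1 ∧ f = a * b,
      ∀ f ∈ GrpP, ∃ s ∈ AutPH, s * f * s⁻¹ = f⁻¹,
      Nonempty (GrpPH ≃* GrpS)] :=
  ⟨fun _ hf => Pool.Agent.W903.GP.exists_mirror hf, Pool.Agent.W903.GP.nice_tfae nicePH⟩

end Pool.Agent.Results.MP_a2d820_lc.ZAmbivalentPH
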